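import Mathlib
import Pool.Agent.H567.Nec.Skew

/-!
# Weakly skew circuits as determinants whose order is the number of variable leaves
-/

set_option autoImplicit false
set_option linter.unusedSectionVars false

namespace Pool.Agent.TH687.WS

open Finset MvPolynomial Pool.Agent.H567.Nec

universe u v w

section Ext

variable {K : Type u} [Field K] {S : Type w} [CommRing S] [Algebra K S]

/-- `W` is obtained from `V` by adding successively `n` elements `p * f`, where `p ∈ Q` and `f`
lies in the space reached so far. -/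
inductive Ext (Q : Set S) (V : Submodule K S) : ℕ → Submodule K S → Prop
  | refl : Ext Q V 0 V
  | step {n : ℕ} {W : Submodule K S} {f p : S} : Ext Q V n W → f ∈ W → p ∈ Q →
      Ext Q V (n + 1) (W ⊔ Submodule.span K {p * f})

lemma Ext.le {Q : Set S} {V W : Submodule K S} {n : ℕ} (h : Ext Q V n W) : V ≤ W := by
  induction h with
  | refl => exact le_rfl
  | step _ _ _ ih => exact le_trans ih le_sup_left

lemma Ext.trans {Q : Set S} {V W W' : Submodule K S} {n n' : ℕ} (h : Ext Q V n W)
    (h' : Ext Q W n' W') : Ext Q V (n + n') W' := by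
  induction h' with
  | refl => exact h
  | step _ hf hp ih => exact Ext.step ih hf hp

/-- all elements of `F` are obtained, from any start `f`, by at most `n` steps -/
def Good (Q : Set S) (n : ℕ) (F : Set S) : Prop :=
  ∀ (V : Submodule K S) (f : S), f ∈ V → ∃ (W : Submodule K S) (n' : ℕ), n' ≤ n ∧ Ext Q V n' W ∧
    ∀ g ∈ F, f * g ∈ W

lemma Good.mono {Q : Set S} {n : ℕ} {F F' : Set S} (h : Good (K := K) Q n F) (hF : F' ⊆ F) :
    Good (K := K) Q n F' := by
  intro V f hf
  obtain ⟨W, n', h1, h2, h3⟩ := h V f hf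
  exact ⟨W, n', h1, h2, fun g hg => h3 g (hF hg)⟩

lemma Good.le_of_le {Q : Set S} {n n' : ℕ} {F : Set S} (hn : n ≤ n')
    (h : Good (K := K) Q n F) : Good (K := K) Q n' F := by
  intro V f hf
  obtain ⟨W, n', h1, h2, h3⟩ := h V f hf
  exact ⟨W, n', h1.trans hn, h2, h3⟩

lemma good_empty (Q : Set S) : Good (K := K) Q 0 ∅ :=
  fun V _ _ => ⟨V, 0, le_rfl, Ext.refl, fun _ hg => hg.elim⟩

lemma Good.const {Q : Set S} {n : ℕ} {F : Set S} (h : Good (K := K) Q n F) (g : S) (c : K)
    (hg : g = algebraMap K S c) : Good (K := K) Q n (insert g F) := by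
  intro V f hf
  obtain ⟨W, n', h1, h2, h3⟩ := h V f hf
  refine ⟨W, n', h1, h2, ?_⟩
  rintro g' (rfl | hg')
  · rw [hg, mul_comm, ← Algebra.smul_def]
    exact W.smul_mem _ (h2.le hf)
  · exact h3 g' hg'

lemma Good.var {Q : Set S} {n : ℕ} {F : Set S} (h : Good (K := K) Q n F) (g : S)
    (hg : g ∈ Q) : Good (K := K) Q (n + 1) (insert g F) := by
  intro V f hf
  obtain ⟨W, n', h1, h2, h3⟩ := h V f hf
  refine ⟨_, n' + 1, by omega, Ext.step h2 (h2.le hf) hg, ?_⟩
  rintro g' (rfl | hg')
  · apply Submodule.mem_sup_right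
    rw [mul_comm]
    exact Submodule.mem_span_singleton_self _
  · exact Submodule.mem_sup_left (h3 g' hg')

lemma Good.add {Q : Set S} {n : ℕ} {F : Set S} (h : Good (K := K) Q n F) {a b : S}
    (ha : a ∈ F) (hb : b ∈ F) (g : S) (hg : g = a + b) : Good (K := K) Q n (insert g F) := by
  intro V f hf
  obtain ⟨W, n', h1, h2, h3⟩ := h V f hf
  refine ⟨W, n', h1, h2, ?_⟩
  rintro g' (rfl | hg')
  · rw [hg, mul_add]
    exact W.add_mem (h3 a ha) (h3 b hb)
  · exact h3 g' hg'

lemma Good.mul {Q : Set S} {n n' : ℕ} {F F' : Set S} (h : Good (K := K) Q n F)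
    (h' : Good (K := K) Q n' F') {a b : S}
    (ha : a ∈ F) (hb : b ∈ F') (g : S) (hg : g = a * b) :
    Good (K := K) Q (n + n') (insert g F) := by
  intro V f hf
  obtain ⟨W, m, h1, h2, h3⟩ := h V f hf
  obtain ⟨W', m', h1', h2', h3'⟩ := h' W (f * a) (h3 a ha)
  refine ⟨W', m + m', by omega, h2.trans h2', ?_⟩
  rintro g' (rfl | hg')
  · rw [hg, ← mul_assoc]
    exact h3' b hb
  · exact h2'.le (h3 g' hg')

/-- the matrix with first row `r` and other rows `B` -/
def mk {n : ℕ} (r : Fin (n + 1) → S) (B : Fin n → Fin (n + 1) → S) :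
    Matrix (Fin (n + 1)) (Fin (n + 1)) S := Matrix.of (Fin.cons r B)

lemma mk_zero {n : ℕ} (r : Fin (n + 1) → S) (B : Fin n → Fin (n + 1) → S) (j : Fin (n + 1)) :
    mk r B 0 j = r j := rfl

lemma mk_succ {n : ℕ} (r : Fin (n + 1) → S) (B : Fin n → Fin (n + 1) → S) (i : Fin n)
    (j : Fin (n + 1)) : mk r B i.succ j = B i j := rfl

lemma mk_eq {n : ℕ} (B : Fin n → Fin (n + 1) → S) (t : Fin (n + 1) → S) :
    mk t B = (mk 0 B).updateRow 0 t := by
  ext i j
  refine Fin.cases ?_ (fun i' => ?_) i
  · rw [Matrix.updateRow_self, mk_zero]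
  · rw [Matrix.updateRow_ne (Fin.succ_ne_zero i'), mk_succ, mk_succ]

/-- the determinant is linear in the first row -/
lemma det_mk_smul {n : ℕ} (B : Fin n → Fin (n + 1) → S) (c : S) (r : Fin (n + 1) → S) :
    (mk (c • r) B).det = c * (mk r B).det := by
  rw [mk_eq, mk_eq B r, Matrix.det_updateRow_smul]

/-- a new column and a new row -/
lemma det_step {n : ℕ} (B : Fin n → Fin (n + 1) → S) (a : S) (r t : Fin (n + 1) → S) :
    (mk (Fin.cons a (-r) : Fin (n + 2) → S)
      (Fin.cons (Fin.cons 1 t : Fin (n + 2) → S) (fun i => (Fin.cons 0 (B i) : Fin (n + 2) → S)) :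
        Fin (n + 1) → Fin (n + 2) → S)).det =
      a * (mk t B).det + (mk r B).det := by
  rw [Matrix.det_succ_column_zero, Fin.sum_univ_succ, Fin.sum_univ_succ, Finset.sum_eq_zero]
  · have e1 : (mk (Fin.cons a (-r) : Fin (n + 2) → S)
      (Fin.cons (Fin.cons 1 t : Fin (n + 2) → S) (fun i => (Fin.cons 0 (B i) : Fin (n + 2) → S)) :
        Fin (n + 1) → Fin (n + 2) → S)).submatrix (Fin.succAbove 0) Fin.succ = mk t B := by
      ext i j
      rw [Matrix.submatrix_apply, Fin.succAbove_zero, mk_succ]
      refine Fin.cases ?_ (fun i' => ?_) i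
      · rw [mk_zero, Fin.cons_zero, Fin.cons_succ]
      · rw [mk_succ, Fin.cons_succ, Fin.cons_succ]
    have e2 : (mk (Fin.cons a (-r) : Fin (n + 2) → S)
      (Fin.cons (Fin.cons 1 t : Fin (n + 2) → S) (fun i => (Fin.cons 0 (B i) : Fin (n + 2) → S)) :
        Fin (n + 1) → Fin (n + 2) → S)).submatrix (Fin.succAbove (Fin.succ 0)) Fin.succ =
          mk (-r) B := by
      ext i j
      rw [Matrix.submatrix_apply]
      refine Fin.cases ?_ (fun i' => ?_) i
      · rw [Fin.succ_succAbove_zero, mk_zero, mk_zero, Fin.cons_succ]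
      · rw [Fin.succ_succAbove_succ, Fin.succAbove_zero, mk_succ, mk_succ, Fin.cons_succ,
          Fin.cons_succ]
    have e3 : (mk (-r) B).det = - (mk r B).det := by
      have h := det_mk_smul B (-1) r
      rw [neg_one_smul, neg_one_mul] at h
      exact h
    rw [e1, e2, e3]
    simp only [mk_zero, mk_succ, Fin.cons_zero, Fin.val_zero, pow_zero, one_mul,
      Fin.val_succ, zero_add, pow_one, add_zero]
    ring
  · intro i _
    rw [mk_succ, Fin.cons_succ, Fin.cons_zero, mul_zero, zero_mul]

/-- A chain of `n` steps yields determinants of order `n + 1`. -/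
lemma det_of_ext {Q : Set S} (D : Submodule K S) (h1 : (1 : S) ∈ D) (hQ : ∀ p ∈ Q, p ∈ D)
    {n : ℕ} {W : Submodule K S} (h : Ext Q (Submodule.span K {(1 : S)}) n W) :
    ∃ B : Fin n → Fin (n + 1) → S, (∀ i j, B i j ∈ D) ∧ ∀ w ∈ W, ∃ c : Fin (n + 1) → K,
      (mk (fun j => algebraMap K S (c j)) B).det = w := by
  induction h with
  | refl =>
    refine ⟨fun i => i.elim0, fun i => i.elim0, ?_⟩
    intro w hw
    obtain ⟨c, rfl⟩ := Submodule.mem_span_singleton.mp hw
    refine ⟨fun _ => c, ?_⟩
    rw [Matrix.det_fin_one, mk_zero, Algebra.smul_def, mul_one]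
  | @step n W f p _ hf hp ih =>
    obtain ⟨B, hB, hW⟩ := ih
    obtain ⟨cf, hcf⟩ := hW f hf
    refine ⟨Fin.cons (Fin.cons 1 (p • fun j => algebraMap K S (cf j)) : Fin (n + 2) → S)
      (fun i => (Fin.cons 0 (B i) : Fin (n + 2) → S)), ?_, ?_⟩
    · intro i j
      refine Fin.cases ?_ (fun i' => ?_) i
      · rw [Fin.cons_zero]
        refine Fin.cases ?_ (fun j' => ?_) j
        · rw [Fin.cons_zero]; exact h1
        · rw [Fin.cons_succ, Pi.smul_apply, smul_eq_mul, mul_comm, ← Algebra.smul_def]
          exact D.smul_mem _ (hQ p hp)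
      · rw [Fin.cons_succ]
        refine Fin.cases ?_ (fun j' => ?_) j
        · rw [Fin.cons_zero]; exact D.zero_mem
        · rw [Fin.cons_succ]; exact hB _ _
    · intro w hw
      obtain ⟨w₀, hw₀, w₁, hw₁, rfl⟩ := Submodule.mem_sup.mp hw
      obtain ⟨a, rfl⟩ := Submodule.mem_span_singleton.mp hw₁
      obtain ⟨c, hc⟩ := hW w₀ hw₀
      refine ⟨Fin.cons a (-c), ?_⟩
      have e : (fun j : Fin (n + 2) => algebraMap K S
          ((Fin.cons a (-c) : Fin (n + 2) → K) j)) =
          Fin.cons (algebraMap K S a) (-(fun j => algebraMap K S (c j))) := by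
        funext j
        refine Fin.cases ?_ (fun j' => ?_) j
        · rw [Fin.cons_zero, Fin.cons_zero]
        · rw [Fin.cons_succ, Fin.cons_succ, Pi.neg_apply, Pi.neg_apply, map_neg]
      rw [e, det_step, det_mk_smul, hcf, hc, Algebra.smul_def]
      ring

end Ext

section main

variable {K : Type u} {σ : Type v} [Field K] {S : Type w} [CommRing S] [Algebra K S]
  {Φ : Circuit K σ}

/-- sources labelled by a variable whose input is not a constant -/
def IsVar (Φ : Circuit K σ) (q : σ → S) (a : Fin Φ.N) : Prop :=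
  ∃ v, Φ.node a = Node.var v ∧ q v ∉ Set.range (algebraMap K S)

/-- the value of a node for the inputs `q` -/
noncomputable def val (Φ : Circuit K σ) (q : σ → S) (a : Fin Φ.N) : S := aeval q (Φ.value a)

open Classical in
lemma good_sub (χ : Φ.Choice) (q : σ → S) (r : Fin Φ.N) :
    Good (K := K) (Set.range q) (univ.filter (fun a => Φ.Sub r a ∧ IsVar Φ q a)).card
      {f | ∃ a, Circuit.Reu χ r a ∧ f = val Φ q a} := by
  induction r using WellFoundedLT.induction with
  | ind r ihr =>
  -- process the nodes in order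
  have key : ∀ n : ℕ, n ≤ Φ.N →
      Good (K := K) (Set.range q) (univ.filter (fun a => ((a.1 < n ∧ Circuit.Reu χ r a) ∨
        ∃ g : Fin Φ.N, g.1 < n ∧ Circuit.Reu χ r g ∧
        Circuit.InC χ g a) ∧ IsVar Φ q a)).card
        {f | ∃ a : Fin Φ.N, a.1 < n ∧ Circuit.Reu χ r a ∧ f = val Φ q a} := by
    intro n
    induction n with
    | zero =>
      intro _
      have e1 : {f | ∃ a : Fin Φ.N, a.1 < 0 ∧ Circuit.Reu χ r a ∧ f = val Φ q a} =
          (∅ : Set S) := by
        ext f; simp
      have e2 : (univ.filter (fun a : Fin Φ.N => ((a.1 < 0 ∧ Circuit.Reu χ r a) ∨ ∃ g : Fin Φ.N,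
          g.1 < 0 ∧ Circuit.Reu χ r g ∧ Circuit.InC χ g a) ∧ IsVar Φ q a)) = ∅ := by
        ext f; simp
      rw [e1, e2]
      exact good_empty _
    | succ n ihn =>
      intro hn
      have ih := ihn (by omega)
      set k : Fin Φ.N := ⟨n, by omega⟩ with hk
      have hlt : ∀ a : Fin Φ.N, a.1 < n + 1 ↔ a.1 < n ∨ a = k := by
        intro a
        constructor
        · intro h
          rcases Nat.lt_succ_iff_lt_or_eq.mp h with h | h
          · exact Or.inl h
          · exact Or.inr (Fin.ext h)
        · rintro (h | h)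
          · omega
          · rw [h]; simp [hk]
      by_cases hR : Circuit.Reu χ r k
      · -- `k` is reusable
        have hF : {f | ∃ a : Fin Φ.N, a.1 < n + 1 ∧ Circuit.Reu χ r a ∧ f = val Φ q a} =
            insert (val Φ q k) {f | ∃ a : Fin Φ.N, a.1 < n ∧ Circuit.Reu χ r a ∧
              f = val Φ q a} := by
          ext f
          constructor
          · rintro ⟨a, ha, hra, rfl⟩
            rcases (hlt a).mp ha with h | h
            · exact Or.inr ⟨a, h, hra, rfl⟩
            · rw [h]; exact Or.inl rfl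
          · rintro (rfl | ⟨a, ha, hra, rfl⟩)
            · exact ⟨k, (hlt k).mpr (Or.inr rfl), hR, rfl⟩
            · exact ⟨a, by omega, hra, rfl⟩
        rw [hF]
        -- membership of reusable arguments
        have harg : ∀ (p : Bool) (a : Fin Φ.N), (Φ.node k).arg p = some a →
            ¬ ((∃ l r', Φ.node k = Node.mul l r') ∧ p = χ.side k) →
            val Φ q a ∈ {f | ∃ a : Fin Φ.N, a.1 < n ∧ Circuit.Reu χ r a ∧ f = val Φ q a} := by
          intro p a ha hq
          refine ⟨a, ?_, hR.arg ha hq, rfl⟩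
          have := Φ.lt _ _ _ ha
          exact this
        -- the new set of sources contains the old one
        have hsub : (univ.filter (fun a : Fin Φ.N => ((a.1 < n ∧ Circuit.Reu χ r a) ∨
            ∃ g : Fin Φ.N, g.1 < n ∧ Circuit.Reu χ r g ∧ Circuit.InC χ g a) ∧ IsVar Φ q a)) ⊆
            (univ.filter (fun a : Fin Φ.N => ((a.1 < n + 1 ∧ Circuit.Reu χ r a) ∨ ∃ g : Fin Φ.N,
            g.1 < n + 1 ∧ Circuit.Reu χ r g ∧ Circuit.InC χ g a) ∧ IsVar Φ q a)) := by
          intro a ha
          simp only [mem_filter, mem_univ, true_and] at ha ⊢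
          refine ⟨?_, ha.2⟩
          rcases ha.1 with h | ⟨g, h1, h2, h3⟩
          · exact Or.inl ⟨by omega, h.2⟩
          · exact Or.inr ⟨g, by omega, h2, h3⟩
        cases hnode : Φ.node k with
        | var v =>
          by_cases hv : q v ∈ Set.range (algebraMap K S)
          · obtain ⟨c, hc⟩ := hv
            refine Good.le_of_le (Finset.card_le_card hsub)
              (ih.const (val Φ q k) c ?_)
            simp only [val, Circuit.value_var Φ hnode, MvPolynomial.aeval_X]
            exact hc.symm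
          have h1 := ih.var (val Φ q k) ⟨v, by
            simp only [val, Circuit.value_var Φ hnode, MvPolynomial.aeval_X]⟩
          refine Good.le_of_le ?_ h1
          have : insert k (univ.filter (fun a : Fin Φ.N => ((a.1 < n ∧ Circuit.Reu χ r a) ∨
              ∃ g : Fin Φ.N, g.1 < n ∧ Circuit.Reu χ r g ∧ Circuit.InC χ g a) ∧ IsVar Φ q a)) ⊆
              (univ.filter (fun a : Fin Φ.N => ((a.1 < n + 1 ∧ Circuit.Reu χ r a) ∨
              ∃ g : Fin Φ.N, g.1 < n + 1 ∧ Circuit.Reu χ r g ∧ Circuit.InC χ g a) ∧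
              IsVar Φ q a)) := by
            intro a ha
            rcases Finset.mem_insert.mp ha with rfl | ha
            · simp only [mem_filter, mem_univ, true_and]
              exact ⟨Or.inl ⟨by simp [hk], hR⟩, v, hnode, hv⟩
            · exact hsub ha
          have h2 := Finset.card_le_card this
          rwa [Finset.card_insert_of_notMem] at h2
          simp only [mem_filter, mem_univ, true_and, not_and]
          rintro (h | ⟨g, _, h2, h3⟩) _
          · simp [hk] at h
          · exact hR.2 g h2.1 h3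
        | const c =>
          refine Good.le_of_le (Finset.card_le_card hsub)
            (ih.const (val Φ q k) c ?_)
          simp only [val, Circuit.value_const Φ hnode, MvPolynomial.aeval_C]
        | add l r' =>
          refine Good.le_of_le (Finset.card_le_card hsub) (ih.add
            (harg false l (by rw [hnode]; rfl) (by rw [hnode]; rintro ⟨⟨_, _, h⟩, _⟩; cases h))
            (harg true r' (by rw [hnode]; rfl) (by rw [hnode]; rintro ⟨⟨_, _, h⟩, _⟩; cases h))
            (val Φ q k) ?_)
          simp only [val, Circuit.value_add Φ hnode, map_add]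
        | mul l r' =>
          -- closed argument `u`, other argument `o`
          obtain ⟨u, o, hu, ho, hval⟩ : ∃ u o : Fin Φ.N, (Φ.node k).arg (χ.side k) = some u ∧
              (Φ.node k).arg (!(χ.side k)) = some o ∧
              Φ.value k = Φ.value o * Φ.value u := by
            cases hs : χ.side k with
            | false =>
              refine ⟨l, r', by rw [hnode]; rfl, by rw [hnode]; rfl, ?_⟩
              rw [Circuit.value_mul Φ hnode, mul_comm]
            | true =>
              refine ⟨r', l, by rw [hnode]; rfl, by rw [hnode]; rfl, ?_⟩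
              rw [Circuit.value_mul Φ hnode]
          have huk : u < k := Φ.lt _ _ _ hu
          have hkr : k ≤ r := hR.1.le
          have h1 := ihr u (lt_of_lt_of_le huk hkr)
          have h2 := ih.mul h1 (harg _ o ho (by
              rintro ⟨_, h⟩; cases hs : χ.side k <;> simp [hs] at h))
            ⟨u, Circuit.Reu.self χ u, rfl⟩ (val Φ q k) (by
              simp only [val, hval, map_mul])
          refine Good.le_of_le ?_ h2
          have hmul : ∃ l r', Φ.node k = Node.mul l r' := ⟨l, r', hnode⟩
          have hdis : Disjoint (univ.filter (fun a : Fin Φ.N => ((a.1 < n ∧ Circuit.Reu χ r a) ∨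
              ∃ g : Fin Φ.N, g.1 < n ∧ Circuit.Reu χ r g ∧ Circuit.InC χ g a) ∧ IsVar Φ q a))
              (univ.filter (fun a => Φ.Sub u a ∧ IsVar Φ q a)) := by
            rw [Finset.disjoint_left]
            intro a ha hb
            simp only [mem_filter, mem_univ, true_and] at ha hb
            have hin : Circuit.InC χ k a := ⟨hmul, u, hu, hb.1⟩
            rcases ha.1 with h | ⟨g, h1, h2, h3⟩
            · exact h.2.2 k hR.1 hin
            · apply Circuit.InC.disjoint h2 hR _ h3 hin
              rintro rfl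
              simp [hk] at h1
          rw [← Finset.card_union_of_disjoint hdis]
          apply Finset.card_le_card
          intro a ha
          rcases Finset.mem_union.mp ha with ha | ha
          · exact hsub ha
          · simp only [mem_filter, mem_univ, true_and] at ha ⊢
            exact ⟨Or.inr ⟨k, by simp [hk], hR, hmul, u, hu, ha.1⟩, ha.2⟩
      · -- `k` is not reusable: nothing changes
        have e1 : {f | ∃ a : Fin Φ.N, a.1 < n + 1 ∧ Circuit.Reu χ r a ∧ f = val Φ q a} =
            {f | ∃ a : Fin Φ.N, a.1 < n ∧ Circuit.Reu χ r a ∧ f = val Φ q a} := by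
          ext f
          constructor
          · rintro ⟨a, ha, hra, rfl⟩
            rcases (hlt a).mp ha with h | h
            · exact ⟨a, h, hra, rfl⟩
            · rw [h] at hra; exact absurd hra hR
          · rintro ⟨a, ha, hra, rfl⟩
            exact ⟨a, by omega, hra, rfl⟩
        have e2 : (univ.filter (fun a : Fin Φ.N => ((a.1 < n + 1 ∧ Circuit.Reu χ r a) ∨
            ∃ g : Fin Φ.N, g.1 < n + 1 ∧ Circuit.Reu χ r g ∧ Circuit.InC χ g a) ∧
              IsVar Φ q a)) =
            (univ.filter (fun a : Fin Φ.N => ((a.1 < n ∧ Circuit.Reu χ r a) ∨ ∃ g : Fin Φ.N,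
            g.1 < n ∧ Circuit.Reu χ r g ∧ Circuit.InC χ g a) ∧ IsVar Φ q a)) := by
          ext a
          simp only [mem_filter, mem_univ, true_and]
          apply and_congr_left
          intro _
          constructor
          · rintro (⟨h1, h2⟩ | ⟨g, h1, h2, h3⟩)
            · rcases (hlt a).mp h1 with h | h
              · exact Or.inl ⟨h, h2⟩
              · rw [h] at h2; exact absurd h2 hR
            · rcases (hlt g).mp h1 with h | h
              · exact Or.inr ⟨g, h, h2, h3⟩
              · rw [h] at h2; exact absurd h2 hR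
          · rintro (⟨h1, h2⟩ | ⟨g, h1, h2, h3⟩)
            · exact Or.inl ⟨by omega, h2⟩
            · exact Or.inr ⟨g, by omega, h2, h3⟩
        rw [e1, e2]
        exact ih
  have h := key Φ.N le_rfl
  refine Good.le_of_le ?_ (h.mono ?_)
  · apply Finset.card_le_card
    intro a ha
    simp only [mem_filter, mem_univ, true_and] at ha ⊢
    refine ⟨?_, ha.2⟩
    rcases ha.1 with h | ⟨g, _, h2, h3⟩
    · exact h.2.1
    · obtain ⟨_, u, hu, hau⟩ := h3
      exact Circuit.Sub.trans hau (Circuit.Sub.trans (Circuit.Sub.of_edge hu) h2.1)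
  · rintro f ⟨a, ha, rfl⟩
    exact ⟨a, a.2, ha, rfl⟩

open Classical in
/-- The output of a weakly skew circuit, for arbitrary inputs, is a determinant whose order is at
most the number of its sources with a non-constant input plus one. -/
theorem exists_det (Φ : Circuit K σ) (hΦ : Φ.WeaklySkew) (o : Fin Φ.N) (q : σ → S)
    (D : Submodule K S) (h1 : (1 : S) ∈ D) (hq : ∀ i, q i ∈ D) :
    ∃ n : ℕ, n ≤ (univ.filter (fun a => Φ.Sub o a ∧ IsVar Φ q a)).card ∧
      ∃ A : Matrix (Fin (n + 1)) (Fin (n + 1)) S, (∀ i j, A i j ∈ D) ∧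
        A.det = aeval q (Φ.value o) := by
  obtain ⟨χ⟩ := hΦ.exists_choice
  obtain ⟨W, n, hn, hext, hW⟩ := good_sub χ q o (Submodule.span K {(1 : S)}) 1
    (Submodule.mem_span_singleton_self _)
  obtain ⟨B, hB, hdet⟩ := det_of_ext D h1 (by rintro _ ⟨i, rfl⟩; exact hq i) hext
  obtain ⟨c, hc⟩ := hdet _ (hW _ ⟨o, Circuit.Reu.self χ o, rfl⟩)
  refine ⟨n, hn, mk (fun j => algebraMap K S (c j)) B, ?_, ?_⟩
  · intro i j
    refine Fin.cases ?_ (fun i' => ?_) i
    · rw [mk_zero]
      have : algebraMap K S (c j) = c j • (1 : S) := by rw [Algebra.smul_def, mul_one]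
      rw [this]
      exact D.smul_mem _ h1
    · rw [mk_succ]
      exact hB _ _
  · rw [hc, one_mul, val]

end main

end Pool.Agent.TH687.WS
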